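import Mathlib
import Pool.Agent.V11254.TreeRP

/-!
# MP_b1de93_lc: `ZFU_R` + Collection does not prove RP

There is a model of `ZFU_R` + Collection in which an instance of RP fails: the sentence which does
not reflect says that for every set `x` of urelements there are a set `y` of urelements and a
set `h` such that (reading `h` as a graph) every element of `x` is joined to two elements of `y`
and every element of `y` is joined to at most one element of `x`.
-/

set_option autoImplicit false

namespace Pool.Agent.Results.MP_b1de93_lc.RPFails

open Pool.Agent.V11254.ULang Pool.Agent.V11254.TreeModel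

/-- There is a model of `ZFU_R` + Collection with a set `s` and a sentence `σ` of the language of
set theory with urelements such that `σ` is true in the model but `σ^t` is false for every
transitive set `t ⊇ s`. In particular the scheme RP fails in the model. -/
theorem result : ∃ M : Str.{1}, M.IsZFUR ∧ M.Collection ∧
    (∃ (σ : Fm Empty Empty 0) (s : M.Ob), ¬ M.ur s ∧ M.True' σ ![] ∧
      ∀ t, M.IsTrans t → (∀ z, M.mem z s → M.mem z t) → ¬ M.TrueIn t σ ![]) ∧
    ¬ M.RP := by
  refine ⟨M, isZFUR, collection, ?_, not_RP⟩
  obtain ⟨S, hS1, hS2⟩ := exists_S
  obtain ⟨s, hs⟩ := pairing S S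
  exact ⟨Branch.branch, s, hs.1,
    (satB_true _ _ _ _ _).1 ((Branch.sat_branch M _ _ _ _).2 branching),
    fun t ht hst h => not_branching hS2 hS1 ht (hst S ((hs.2 S).2 (Or.inl rfl)))
      ((Branch.sat_branch M _ _ _ _).1 h)⟩

end Pool.Agent.Results.MP_b1de93_lc.RPFails
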